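import Pool.Agent.Q54.TK.StmA

set_option autoImplicit false
set_option linter.unusedVariables false

namespace Pool.Agent.Q224.TK

open Finset Pool.Agent.Q54.TK

/-- Two different vertices with the same block lie in a common edge of `M`. -/
theorem bl_eq {V : Type} [DecidableEq V] (M : Finset (Finset V)) (u v : V) (h : bl M u = bl M v)
    (hne : u ≠ v) : ∃ f ∈ M, u ∈ f ∧ v ∈ f := by
  have hv : v ∈ bl M v := mem_insert_self _ _
  rw [← h] at hv
  unfold bl at hv
  rw [mem_insert, mem_biUnion] at hv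
  rcases hv with hv | ⟨f, hf, hvf⟩
  · exact absurd hv.symm hne
  · rw [mem_filter] at hf
    exact ⟨f, hf.1, hf.2, hvf⟩

/-- There are few bad edges. -/
theorem bad (hLDS : S_LDS) : S_BAD := by
  intro V _ _ F M T k s C c hS
  classical
  obtain ⟨hq, hksq, hld, -, -, hcod⟩ := hLDS V F k s hS.hyp
  have hk0 : (0 : ℝ) < k := by
    have := hS.hyp.k2
    exact_mod_cast (by omega : 0 < k)
  have hs0 : (0 : ℝ) < s := by exact_mod_cast hS.hyp.s1
  have hMs : M.card ≤ s := hS.hyp.nu M hS.sub hS.pd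
  have hMk : ∀ f ∈ M, f.card = k := fun f hf => hS.hyp.uf f (hS.sub hf)
  have hsub : F.filter (fun e => ¬ Gd M T e)
      ⊆ M.biUnion (fun f => f.biUnion (fun u => (f.erase u).biUnion
          (fun v => F.filter (fun e => {u, v} ⊆ e)))) := by
    intro e he
    rw [mem_filter] at he
    obtain ⟨heF, hb⟩ := he
    unfold Gd at hb
    push Not at hb
    obtain ⟨u, hu, v, hv, huT, hvT, hbl, hne⟩ := hb
    obtain ⟨f, hf, huf, hvf⟩ := bl_eq M u v hbl hne
    simp only [mem_biUnion]
    refine ⟨f, hf, u, huf, v, mem_erase.2 ⟨hne.symm, hvf⟩, ?_⟩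
    rw [mem_filter]
    refine ⟨heF, ?_⟩
    intro x hx
    rw [mem_insert, mem_singleton] at hx
    rcases hx with rfl | rfl
    · exact hu
    · exact hv
  have h1 : ((F.filter (fun e => ¬ Gd M T e)).card : ℝ)
      ≤ ∑ f ∈ M, ∑ u ∈ f, ∑ v ∈ f.erase u, (dg F {u, v} : ℝ) := by
    have h2 : (F.filter (fun e => ¬ Gd M T e)).card
        ≤ ∑ f ∈ M, ∑ u ∈ f, ∑ v ∈ f.erase u, dg F {u, v} := by
      refine (card_le_card hsub).trans (card_biUnion_le.trans ?_)
      refine sum_le_sum fun f _ => card_biUnion_le.trans ?_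
      refine sum_le_sum fun u _ => card_biUnion_le.trans ?_
      exact le_rfl
    exact_mod_cast h2
  have h3 : (∑ f ∈ M, ∑ u ∈ f, ∑ v ∈ f.erase u, (dg F {u, v} : ℝ)) * (k * s)
      ≤ (k * qq k s) * (k * s) := by
    calc (∑ f ∈ M, ∑ u ∈ f, ∑ v ∈ f.erase u, (dg F {u, v} : ℝ)) * (k * s)
        = ∑ f ∈ M, ∑ u ∈ f, ∑ v ∈ f.erase u, (dg F {u, v} : ℝ) * (k * s) := by
          simp only [sum_mul]
      _ ≤ ∑ f ∈ M, ∑ u ∈ f, ∑ v ∈ f.erase u, qq k s := by
          refine sum_le_sum fun f _ => sum_le_sum fun u _ => sum_le_sum fun v hv => ?_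
          exact hcod u v (ne_of_mem_erase hv).symm
      _ ≤ ∑ f ∈ M, ∑ u ∈ f, k * qq k s := by
          refine sum_le_sum fun f hf => sum_le_sum fun u _ => ?_
          rw [sum_const, nsmul_eq_mul]
          apply mul_le_mul_of_nonneg_right _ hq.le
          have : (f.erase u).card ≤ k := (card_le_card (erase_subset u f)).trans (hMk f hf).le
          exact_mod_cast this
      _ = ∑ f ∈ M, k * (k * qq k s) := by
          refine sum_congr rfl fun f hf => ?_
          rw [sum_const, nsmul_eq_mul, hMk f hf]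
      _ = M.card * (k * (k * qq k s)) := by rw [sum_const, nsmul_eq_mul]
      _ ≤ s * (k * (k * qq k s)) := by
          apply mul_le_mul_of_nonneg_right _ (by positivity)
          exact_mod_cast hMs
      _ = (k * qq k s) * (k * s) := by ring
  exact h1.trans (le_of_mul_le_mul_right h3 (by positivity))

end Pool.Agent.Q224.TK
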