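import Pool.Agent.Q54.TK.StmA

set_option autoImplicit false
set_option linter.unusedVariables false

namespace Pool.Agent.Q224.TK

open Finset Pool.Agent.Q54.TK

/-- Almost all edges live on `(1+ε) k s` vertices. -/
theorem cla (hMAIN : S_MAIN) (hLDS : S_LDS) : S_CLA := by
  intro k hk ε hε
  have hk0 : (0 : ℝ) < k := by exact_mod_cast (by omega : 0 < k)
  have hkk : (0 : ℝ) < (k : ℝ) ^ k := by positivity
  have hkk1 : (0 : ℝ) < (k : ℝ) ^ (k - 1) := by positivity
  obtain ⟨l, hl0, hl1, hl2⟩ : ∃ l : ℝ, 0 < l ∧ l ≤ 1 ∧ (k : ℝ) ^ (k - 1) * (k * l) ≤ ε / 2 := by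
    refine ⟨min 1 (ε / (2 * (k : ℝ) ^ k)), by positivity, min_le_left _ _, ?_⟩
    have h1 : min 1 (ε / (2 * (k : ℝ) ^ k)) ≤ ε / (2 * (k : ℝ) ^ k) := min_le_right _ _
    have h2 : (k : ℝ) ^ (k - 1) * k = (k : ℝ) ^ k := by
      rw [← pow_succ]; congr 1; omega
    calc (k : ℝ) ^ (k - 1) * (k * min 1 (ε / (2 * (k : ℝ) ^ k)))
        = (k : ℝ) ^ k * min 1 (ε / (2 * (k : ℝ) ^ k)) := by rw [← mul_assoc, h2]
      _ ≤ (k : ℝ) ^ k * (ε / (2 * (k : ℝ) ^ k)) := by gcongr
      _ = ε / 2 := by field_simp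
  obtain ⟨z, hz0, hz1, hz2⟩ : ∃ z : ℝ, 0 < z ∧ z + z ≤ ε * k * l ∧
      (k : ℝ) ^ (k - 1) * (z + z) ≤ ε / 2 := by
    refine ⟨min (ε * k * l / 2) (ε / (4 * (k : ℝ) ^ (k - 1))), by positivity, ?_, ?_⟩
    · have := min_le_left (ε * k * l / 2) (ε / (4 * (k : ℝ) ^ (k - 1)))
      linarith
    · have h1 := min_le_right (ε * k * l / 2) (ε / (4 * (k : ℝ) ^ (k - 1)))
      calc (k : ℝ) ^ (k - 1) * (min (ε * k * l / 2) (ε / (4 * (k : ℝ) ^ (k - 1)))
            + min (ε * k * l / 2) (ε / (4 * (k : ℝ) ^ (k - 1))))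
          ≤ (k : ℝ) ^ (k - 1) * (ε / (4 * (k : ℝ) ^ (k - 1)) + ε / (4 * (k : ℝ) ^ (k - 1))) := by
            gcongr
        _ = ε / 2 := by field_simp; ring
  obtain ⟨s0, hs0⟩ := hMAIN k hk l z hl0 hl1 hz0
  refine ⟨z, hz0, s0, fun s hs V _ _ F hH hR => ?_⟩
  have hmain := hs0 s hs V F hH z hR
  obtain ⟨hq, hksq, hld, -, -, -⟩ := hLDS V F k s hH
  have hs1 : (0 : ℝ) < s := by exact_mod_cast hH.s1
  classical
  set P : Finset V := univ.filter (fun v => l ≤ ld k s F v) with hP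
  have hmin0 : ∀ v, 0 ≤ min (ld k s F v) l := fun v => le_min (hld v).1 hl0.le
  refine ⟨P, ?_, ?_⟩
  · have h1 : (P.card : ℝ) * l ≤ ∑ v, min (ld k s F v) l := by
      calc (P.card : ℝ) * l = ∑ v ∈ P, l := by rw [sum_const, nsmul_eq_mul]
        _ = ∑ v ∈ P, min (ld k s F v) l := by
            refine sum_congr rfl fun v hv => ?_
            rw [hP, mem_filter] at hv
            exact (min_eq_right hv.2).symm
        _ ≤ ∑ v, min (ld k s F v) l :=
            sum_le_sum_of_subset_of_nonneg (subset_univ _) (fun v _ _ => hmin0 v)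
    have h2 : (P.card : ℝ) * l ≤ ((1 + ε) * (k * s)) * l := by
      calc (P.card : ℝ) * l ≤ (k * l + z + z) * s := h1.trans hmain
        _ ≤ (k * l + ε * k * l) * s := by
            apply mul_le_mul_of_nonneg_right _ hs1.le
            linarith
        _ = ((1 + ε) * (k * s)) * l := by ring
    exact le_of_mul_le_mul_right h2 hl0
  · have hsub : F.filter (fun e => ¬ e ⊆ P)
        ⊆ (univ.filter (fun v => v ∉ P)).biUnion (fun v => F.filter (fun e => {v} ⊆ e)) := by
      intro e he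
      rw [mem_filter] at he
      obtain ⟨v, hv, hvP⟩ := not_subset.1 he.2
      rw [mem_biUnion]
      refine ⟨v, by simp [hvP], ?_⟩
      rw [mem_filter]
      exact ⟨he.1, singleton_subset_iff.2 hv⟩
    have h1 : ((F.filter (fun e => ¬ e ⊆ P)).card : ℝ)
        ≤ ∑ v ∈ univ.filter (fun v => v ∉ P), (dg F {v} : ℝ) := by
      have := (card_le_card hsub).trans card_biUnion_le
      exact_mod_cast this
    have h2 : ∑ v ∈ univ.filter (fun v => v ∉ P), (dg F {v} : ℝ)
        ≤ qq k s * ∑ v, min (ld k s F v) l := by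
      rw [mul_sum]
      refine le_trans ?_ (sum_le_sum_of_subset_of_nonneg (filter_subset (fun v => v ∉ P) univ)
        (fun v _ _ => mul_nonneg hq.le (hmin0 v)))
      apply le_of_eq
      refine sum_congr rfl fun v hv => ?_
      have hv' : ld k s F v < l := by
        rw [mem_filter] at hv
        have := hv.2
        rw [hP, mem_filter] at this
        simpa using this
      rw [min_eq_left hv'.le]
      unfold ld
      field_simp
    have h3 : qq k s * ∑ v, min (ld k s F v) l ≤ qq k s * ((k * l + z + z) * s) :=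
      mul_le_mul_of_nonneg_left hmain hq.le
    have h4 : qq k s * ((k * l + z + z) * s) = ((k : ℝ) ^ (k - 1) * (k * l)
        + (k : ℝ) ^ (k - 1) * (z + z)) * (s : ℝ) ^ k := by
      have h5 : (s : ℝ) ^ k = (s : ℝ) ^ (k - 1) * s := by
        rw [← pow_succ]; congr 1; omega
      unfold qq
      rw [mul_pow, h5]
      ring
    calc ((F.filter (fun e => ¬ e ⊆ P)).card : ℝ)
        ≤ qq k s * ((k * l + z + z) * s) := h1.trans (h2.trans h3)
      _ = ((k : ℝ) ^ (k - 1) * (k * l) + (k : ℝ) ^ (k - 1) * (z + z)) * (s : ℝ) ^ k := h4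
      _ ≤ (ε / 2 + ε / 2) * (s : ℝ) ^ k := by
          apply mul_le_mul_of_nonneg_right _ (by positivity)
          exact add_le_add hl2 hz2
      _ = ε * (s : ℝ) ^ k := by ring

end Pool.Agent.Q224.TK
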