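import Pool.Agent.Q54.TK.StmA

set_option autoImplicit false
set_option linter.unusedVariables false

namespace Pool.Agent.Q224.TK

open Finset Pool.Agent.Q54.TK

theorem weights_sum {α : Type} [Fintype α] [DecidableEq α] (p : α → ℝ) :
    ∑ S : Finset α, (∏ i, if i ∈ S then p i else 1 - p i) = 1 := by
  have h1 : ∏ i : α, (p i + (1 - p i)) = 1 := by
    apply prod_eq_one
    intro i _
    ring
  rw [prod_add, powerset_univ] at h1
  refine Eq.trans ?_ h1
  refine sum_congr rfl fun S _ => ?_
  rw [prod_ite]
  congr 1
  · apply prod_congr _ (fun _ _ => rfl)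
    ext i; simp
  · apply prod_congr _ (fun _ _ => rfl)
    ext i; simp

/-- Linearity and monotonicity of the product expectation. -/
theorem ebl : S_EBL := by
  intro α _ _ p hp
  have hw : ∀ S : Finset α, 0 ≤ ∏ i, (if i ∈ S then p i else 1 - p i) := by
    intro S
    apply prod_nonneg
    intro i _
    split_ifs
    · exact (hp i).1
    · linarith [(hp i).2]
  refine ⟨?_, ?_, ?_, ?_, ?_, ?_⟩
  · intro f g
    unfold EB
    rw [← sum_add_distrib]
    exact sum_congr rfl fun S _ => mul_add _ _ _
  · intro f g
    unfold EB
    rw [← sum_sub_distrib]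
    exact sum_congr rfl fun S _ => mul_sub _ _ _
  · intro c f
    unfold EB
    rw [mul_sum]
    exact sum_congr rfl fun S _ => by ring
  · intro f g hfg
    unfold EB
    exact sum_le_sum fun S _ => mul_le_mul_of_nonneg_left (hfg S) (hw S)
  · intro c
    unfold EB
    rw [← sum_mul, weights_sum, one_mul]
  · intro J A f
    unfold EB
    simp only [mul_sum]
    exact sum_comm

end Pool.Agent.Q224.TK
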