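import Pool.Agent.Q54.TK.StmB

set_option autoImplicit false
set_option linter.unusedVariables false

namespace Pool.Agent.Q224.TK

open Finset Pool.Agent.Q54.TK

/-- The final assembly. -/
theorem fin (hCLA : S_CLA) (hVST : S_VST) (hEXT : S_EXT) (hL4 : S_L4) : S_FIN := by
  intro k hk
  obtain ⟨δ0, ρ, hδ0, hρ, s1, h1⟩ := hEXT k hk
  obtain ⟨δ1, hδ1, s2, h2⟩ := hL4 k hk
  obtain ⟨ε, hε, s3, h3⟩ := hVST k hk (min δ0 δ1) ρ (lt_min hδ0 hδ1) hρ
  obtain ⟨ζ, hζ, s4, h4⟩ := hCLA k hk ε hε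
  refine ⟨ζ, hζ, max (max s1 s2) (max s3 s4), fun s hs V _ _ F hH hR => ?_⟩
  have hs1 : s1 ≤ s := (le_max_left _ _).trans ((le_max_left _ _).trans hs)
  have hs2 : s2 ≤ s := (le_max_right _ _).trans ((le_max_left _ _).trans hs)
  have hs3 : s3 ≤ s := (le_max_left _ _).trans ((le_max_right _ _).trans hs)
  have hs4 : s4 ≤ s := (le_max_right _ _).trans ((le_max_right _ _).trans hs)
  by_cases hc : F.card ≤ (k * s + k - 1).choose k
  · exact hc
  push Not at hc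
  obtain ⟨P, hP1, hP2⟩ := h4 s hs4 V F hH hR
  obtain ⟨X, hX1, hX2⟩ := h3 s hs3 V F P hH.uf hc.le hP1 hP2
  have hks : (0 : ℝ) ≤ (k : ℝ) * s := by positivity
  have hX0 : (1 - δ0) * (k * s) ≤ (X.card : ℝ) := by
    refine le_trans ?_ hX1
    apply mul_le_mul_of_nonneg_right _ hks
    linarith [min_le_left δ0 δ1]
  have hX3 : (1 - δ1) * (k * s) ≤ (X.card : ℝ) := by
    refine le_trans ?_ hX1
    apply mul_le_mul_of_nonneg_right _ hks
    linarith [min_le_right δ0 δ1]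
  exact h2 s hs2 V F X (h1 s hs1 V F X hH hX0 hX2) hX3

end Pool.Agent.Q224.TK
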