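import Pool.Agent.Q54.TK.StmA
import Pool.Agent.H248.Nib

set_option autoImplicit false
set_option linter.unusedVariables false

namespace Pool.Agent.Q224.TK

open Finset Pool.Agent.Q54.TK

theorem IA_cases {V : Type} [DecidableEq V] (M : Finset (Finset V)) (T : Finset V)
    (g : Finset (Finset V)) (e : Finset V) : 0 ≤ IA M T g e ∧ IA M T g e ≤ 1 ∧
      (0 < IA M T g e → ∀ u ∈ e, Av M T g u) := by
  classical
  unfold IA
  split_ifs with h
  · exact ⟨zero_le_one, le_rfl, fun _ => h.2⟩
  · exact ⟨le_rfl, zero_le_one, fun h => absurd h (lt_irrefl _)⟩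

/-- The nibble for one outcome of the selection. -/
theorem nib (hLDS : S_LDS) : S_NIB := by
  classical
  intro k θ η C hk hθ hη hC
  obtain ⟨κ, hκ, hnib⟩ := H248.Nib.nibble_T k θ hθ
  have hk0 : (0 : ℝ) < k := by exact_mod_cast (by omega : 0 < k)
  obtain ⟨s0, hs0⟩ := exists_nat_ge (C / (κ * k))
  refine ⟨s0, fun s hs V _ _ F M T c g hS => ?_⟩
  obtain ⟨hq, hksq, hld, -, -, hcod⟩ := hLDS V F k s hS.hyp
  have hs1 : (0 : ℝ) < s := by exact_mod_cast hS.hyp.s1
  have hks : (0 : ℝ) < (k : ℝ) * s := by positivity
  have hη1 : (0 : ℝ) < 1 + 2 * η := by linarith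
  have hC0 : (0 : ℝ) < C := by linarith
  have hCκ : C / (k * s) ≤ κ := by
    rw [div_le_iff₀ hks]
    have h1 : C / (κ * k) ≤ s := hs0.trans (by exact_mod_cast hs)
    rw [div_le_iff₀ (by positivity)] at h1
    linarith
  set ok : Finset V → ℝ := fun e => if ∀ u ∈ e, LV F M T c g u ≤ 1 + 2 * η then 1 else 0 with hok
  have hok01 : ∀ e, 0 ≤ ok e ∧ ok e ≤ 1 := by
    intro e
    simp only [hok]
    split_ifs <;> norm_num
  set w : Finset V → ℝ := fun e => c e * IA M T g e * ok e / (1 + 2 * η) with hw
  have hw0 : ∀ e, 0 ≤ w e := by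
    intro e
    have := hS.c0 e
    have := (IA_cases M T g e).1
    have := (hok01 e).1
    positivity
  have hwc : ∀ e, w e ≤ c e := by
    intro e
    have h1 := hS.c0 e
    have h2 := (IA_cases M T g e)
    have h3 := (hok01 e)
    have h4 : c e * IA M T g e * ok e ≤ c e := by
      calc c e * IA M T g e * ok e ≤ c e * 1 * 1 := by
            apply mul_le_mul _ h3.2 h3.1 (by positivity)
            exact mul_le_mul_of_nonneg_left h2.2.1 h1
        _ = c e := by ring
    simp only [hw]
    rw [div_le_iff₀ hη1]
    nlinarith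
  have hcq : ∀ e, c e ≤ C / qq k s := by
    intro e
    rw [le_div_iff₀ hq]
    exact hS.cC e
  have hCq : C / qq k s ≤ C / (k * s) := div_le_div_of_nonneg_left hC0.le hks hksq
  have hsumF : ∀ (p : Finset V → Prop) [DecidablePred p],
      ∑ e ∈ (univ : Finset {e // e ∈ F}).filter (fun e => p e.1), w e.1
        = ∑ e ∈ F.filter p, w e := by
    intro p _
    rw [sum_filter, sum_filter]
    exact sum_coe_sort F (fun e => if p e then w e else 0)
  obtain ⟨N, hN1, hN2, hN3⟩ := hnib {e // e ∈ F} V (fun e => e.1) (fun e => w e.1)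
    (fun e => hw0 e.1)
    (fun e => by
      have h1 := hS.hyp.uf e.1 e.2
      rw [← card_pos, h1]; omega)
    (fun e => (hS.hyp.uf e.1 e.2).le)
    (by
      intro v
      rw [hsumF (fun e => v ∈ e)]
      by_cases hv : LV F M T c g v ≤ 1 + 2 * η
      · calc ∑ e ∈ F.filter (fun e => v ∈ e), w e
            ≤ ∑ e ∈ F.filter (fun e => v ∈ e), c e * IA M T g e / (1 + 2 * η) := by
              refine sum_le_sum fun e _ => ?_
              simp only [hw]
              apply div_le_div_of_nonneg_right _ hη1.le
              exact mul_le_of_le_one_right (mul_nonneg (hS.c0 e) (IA_cases M T g e).1) (hok01 e).2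
          _ = LV F M T c g v / (1 + 2 * η) := by rw [← sum_div]; rfl
          _ ≤ 1 := by rw [div_le_one hη1]; exact hv
      · have : ∑ e ∈ F.filter (fun e => v ∈ e), w e = 0 := by
          refine sum_eq_zero fun e he => ?_
          rw [mem_filter] at he
          have : ok e = 0 := by
            simp only [hok]
            rw [if_neg]
            intro h
            exact hv (h v he.2)
          simp [hw, this]
        rw [this]; norm_num)
    (by
      intro u v huv
      rw [hsumF (fun e => u ∈ e ∧ v ∈ e)]
      have h1 : ∑ e ∈ F.filter (fun e => u ∈ e ∧ v ∈ e), w e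
          ≤ (dg F {u, v} : ℝ) * (C / qq k s) := by
        calc ∑ e ∈ F.filter (fun e => u ∈ e ∧ v ∈ e), w e
            ≤ ∑ e ∈ F.filter (fun e => u ∈ e ∧ v ∈ e), C / qq k s :=
              sum_le_sum fun e _ => (hwc e).trans (hcq e)
          _ = ((F.filter (fun e => u ∈ e ∧ v ∈ e)).card : ℝ) * (C / qq k s) := by
              rw [sum_const, nsmul_eq_mul]
          _ = (dg F {u, v} : ℝ) * (C / qq k s) := by
              congr 2
              unfold dg
              congr 1
              refine filter_congr fun e _ => ?_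
              constructor
              · rintro ⟨h1, h2⟩ x hx
                rw [mem_insert, mem_singleton] at hx
                rcases hx with rfl | rfl
                · exact h1
                · exact h2
              · intro h
                exact ⟨h (by simp), h (by simp)⟩
      refine h1.trans (le_trans ?_ hCκ)
      have h2 := hcod u v huv
      rw [le_div_iff₀ hks]
      calc (dg F {u, v} : ℝ) * (C / qq k s) * (k * s)
          = ((dg F {u, v} : ℝ) * (k * s)) * (C / qq k s) := by ring
        _ ≤ qq k s * (C / qq k s) := by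
            apply mul_le_mul_of_nonneg_right h2
            positivity
        _ = C := by field_simp)
    (fun e => (hwc e.1).trans ((hcq e.1).trans (hCq.trans hCκ)))
  refine ⟨N.image Subtype.val, ?_, ?_, ?_, ?_⟩
  · intro e he
    rw [mem_image] at he
    obtain ⟨x, -, rfl⟩ := he
    exact x.2
  · intro e he f hf hne
    rw [mem_image] at he hf
    obtain ⟨x, hx, rfl⟩ := he
    obtain ⟨y, hy, rfl⟩ := hf
    exact hN1 x hx y hy (fun h => hne (by rw [h]))
  · intro e he
    rw [mem_image] at he
    obtain ⟨x, hx, rfl⟩ := he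
    have h1 := hN2 x hx
    have h2 : 0 < IA M T g x.1 := by
      rcases (IA_cases M T g x.1).1.lt_or_eq with h | h
      · exact h
      · simp only [hw] at h1
        rw [← h] at h1
        simp at h1
    exact (IA_cases M T g x.1).2.2 h2
  · rw [card_image_of_injective _ Subtype.val_injective]
    refine le_trans (le_of_eq ?_) hN3
    have h1 : ∑ e : {e // e ∈ F}, w e.1 = ∑ e ∈ F, w e := sum_coe_sort F w
    have h2 : WT F M T c η g = ∑ e ∈ F, c e * IA M T g e * ok e := by
      unfold WT
      refine sum_congr rfl fun e _ => ?_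
      simp only [hok]
      congr
    rw [h1, h2]
    simp only [hw]
    rw [← sum_div]
    ring

end Pool.Agent.Q224.TK
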