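import Pool.Agent.Q54.TK.StmB

set_option autoImplicit false
set_option linter.unusedVariables false

namespace Pool.Agent.Q224.TK

open Finset Pool.Agent.Q54.TK

/-- Augmentation of a matching by the cyclic shift construction. -/
theorem pm1 : S_PM1 := by
  intro V _ _ F M X k _ u f en hk hUF hMF hPD hMX hu huX huM hf hfM hen hgi hgs
  -- a vertex in two edges of the matching
  have hsame : ∀ e ∈ M, ∀ e' ∈ M, ∀ v, v ∈ e → v ∈ e' → e = e' := by
    intro e he e' he' v hv hv'
    by_contra hne
    exact (disjoint_left.1 (hPD e he e' he' hne)) hv hv'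
  have henf : ∀ j m, en (f j) m ∈ f j := fun j m => (hen _ (hfM j)).2 m
  have heq : ∀ j m j' m', en (f j) m = en (f j') m' → j = j' ∧ m = m' := by
    intro j m j' m' h
    have h1 : f j = f j' := hsame _ (hfM j) _ (hfM j') _ (henf j m) (by rw [h]; exact henf j' m')
    have h2 : j = j' := hf h1
    subst h2
    exact ⟨rfl, (hen _ (hfM j)).1 h⟩
  have hmemgi : ∀ i v, v ∈ gi u f en i ↔ v = u i ∨ ∃ j, j ≠ i ∧ v = en (f j) (i - j) := by
    intro i v
    unfold gi
    rw [mem_insert, mem_image]
    constructor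
    · rintro (h | ⟨j, hj, h⟩)
      · exact Or.inl h
      · exact Or.inr ⟨j, ne_of_mem_erase hj, h.symm⟩
    · rintro (h | ⟨j, hj, h⟩)
      · exact Or.inl h
      · exact Or.inr ⟨j, mem_erase.2 ⟨hj, mem_univ _⟩, h.symm⟩
  have hmemgs : ∀ v, v ∈ gs f en ↔ ∃ j, v = en (f j) 0 := by
    intro v
    unfold gs
    rw [mem_image]
    constructor
    · rintro ⟨j, -, h⟩; exact ⟨j, h.symm⟩
    · rintro ⟨j, h⟩; exact ⟨j, mem_univ _, h.symm⟩
  have hune : ∀ i j m, u i ≠ en (f j) m := by
    intro i j m h
    exact huM i (f j) (hfM j) (by rw [h]; exact henf j m)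
  -- the new edges are disjoint
  have hgg : ∀ i i', i ≠ i' → Disjoint (gi u f en i) (gi u f en i') := by
    intro i i' hne
    rw [disjoint_left]
    intro v hv hv'
    rw [hmemgi] at hv hv'
    rcases hv with rfl | ⟨j, hj, rfl⟩
    · rcases hv' with h | ⟨j, hj, h⟩
      · exact hne (hu h)
      · exact hune _ _ _ h
    · rcases hv' with h | ⟨j', hj', h⟩
      · exact hune _ _ _ h.symm
      · obtain ⟨h1, h2⟩ := heq _ _ _ _ h
        subst h1
        exact hne (sub_left_injective h2)
  have hgsg : ∀ i, Disjoint (gi u f en i) (gs f en) := by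
    intro i
    rw [disjoint_left]
    intro v hv hv'
    rw [hmemgi] at hv
    rw [hmemgs] at hv'
    obtain ⟨j', h'⟩ := hv'
    rcases hv with h | ⟨j, hj, h⟩
    · exact hune i j' 0 (h.symm.trans h')
    · obtain ⟨h1, h2⟩ := heq _ _ _ _ (h.symm.trans h')
      exact hj (sub_eq_zero.1 h2).symm
  have hgM : ∀ i, ∀ e ∈ M, (∀ j, f j ≠ e) → Disjoint (gi u f en i) e := by
    intro i e he hne
    rw [disjoint_left]
    intro v hv hv'
    rw [hmemgi] at hv
    rcases hv with rfl | ⟨j, hj, rfl⟩
    · exact huM i e he hv'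
    · exact hne j (hsame _ (hfM j) _ he _ (henf _ _) hv')
  have hsM : ∀ e ∈ M, (∀ j, f j ≠ e) → Disjoint (gs f en) e := by
    intro e he hne
    rw [disjoint_left]
    intro v hv hv'
    rw [hmemgs] at hv
    obtain ⟨j, rfl⟩ := hv
    exact hne j (hsame _ (hfM j) _ he _ (henf _ _) hv')
  have hnemp : ∀ e ∈ F, ¬ Disjoint e e := by
    intro e he h
    rw [disjoint_self, bot_eq_empty] at h
    have := hUF e he
    rw [h, card_empty] at this
    omega
  set M0 : Finset (Finset V) := M \ univ.image f with hM0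
  set G : Finset (Finset V) := univ.image (gi u f en) with hG
  have hM0mem : ∀ e, e ∈ M0 ↔ e ∈ M ∧ ∀ j, f j ≠ e := by
    intro e
    rw [hM0, mem_sdiff, mem_image]
    constructor
    · rintro ⟨h1, h2⟩
      exact ⟨h1, fun j hj => h2 ⟨j, mem_univ _, hj⟩⟩
    · rintro ⟨h1, h2⟩
      exact ⟨h1, fun ⟨j, _, hj⟩ => h2 j hj⟩
  have hGmem : ∀ e, e ∈ G ↔ ∃ i, gi u f en i = e := by
    intro e
    rw [hG, mem_image]
    simp
  refine ⟨insert (gs f en) (M0 ∪ G), ?_, ?_, ?_, ?_⟩
  · intro e he
    rw [mem_insert, mem_union] at he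
    rcases he with rfl | he | he
    · exact hgs
    · exact hMF ((hM0mem e).1 he).1
    · obtain ⟨i, rfl⟩ := (hGmem e).1 he
      exact hgi i
  · intro e he e' he' hne
    rw [mem_insert, mem_union] at he he'
    rcases he with rfl | he | he
    · rcases he' with rfl | he' | he'
      · exact absurd rfl hne
      · exact hsM _ ((hM0mem _).1 he').1 ((hM0mem _).1 he').2
      · obtain ⟨i, rfl⟩ := (hGmem _).1 he'
        exact (hgsg i).symm
    · rcases he' with rfl | he' | he'
      · exact (hsM _ ((hM0mem _).1 he).1 ((hM0mem _).1 he).2).symm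
      · exact hPD _ ((hM0mem _).1 he).1 _ ((hM0mem _).1 he').1 hne
      · obtain ⟨i, rfl⟩ := (hGmem _).1 he'
        exact (hgM i _ ((hM0mem _).1 he).1 ((hM0mem _).1 he).2).symm
    · obtain ⟨i, rfl⟩ := (hGmem _).1 he
      rcases he' with rfl | he' | he'
      · exact hgsg i
      · exact hgM i _ ((hM0mem _).1 he').1 ((hM0mem _).1 he').2
      · obtain ⟨i', rfl⟩ := (hGmem _).1 he'
        exact hgg i i' (fun h => hne (by rw [h]))
  · intro e he
    rw [mem_insert, mem_union] at he
    rcases he with rfl | he | he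
    · intro v hv
      obtain ⟨j, rfl⟩ := (hmemgs v).1 hv
      exact hMX _ (hfM j) (henf _ _)
    · exact hMX _ ((hM0mem _).1 he).1
    · obtain ⟨i, rfl⟩ := (hGmem _).1 he
      intro v hv
      rcases (hmemgi i v).1 hv with rfl | ⟨j, hj, rfl⟩
      · exact huX i
      · exact hMX _ (hfM j) (henf _ _)
  · have hGcard : G.card = k := by
      rw [hG, card_image_of_injective, card_univ, Fintype.card_fin]
      intro i i' h
      by_contra hne
      have h1 := hgg i i' hne
      rw [h] at h1
      exact hnemp _ (hgi i') h1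
    have hM0card : M0.card + k = M.card := by
      have h1 : univ.image f ⊆ M := by
        intro e he
        rw [mem_image] at he
        obtain ⟨j, -, rfl⟩ := he
        exact hfM j
      have h2 := card_sdiff_add_card_eq_card h1
      rw [card_image_of_injective _ hf, card_univ, Fintype.card_fin] at h2
      exact h2
    have hd : Disjoint M0 G := by
      rw [disjoint_left]
      intro e he he'
      obtain ⟨i, rfl⟩ := (hGmem _).1 he'
      have h1 := hgM i _ ((hM0mem _).1 he).1 ((hM0mem _).1 he).2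
      exact hnemp _ (hgi i) h1
    have hgsn : gs f en ∉ M0 ∪ G := by
      rw [mem_union]
      rintro (he | he)
      · exact hnemp _ hgs (hsM _ ((hM0mem _).1 he).1 ((hM0mem _).1 he).2)
      · obtain ⟨i, hi⟩ := (hGmem _).1 he
        have h1 := hgsg i
        rw [hi] at h1
        exact hnemp _ hgs h1
    rw [card_insert_of_notMem hgsn, card_union_of_disjoint hd, hGcard]
    omega

end Pool.Agent.Q224.TK
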